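import Pool.Agent.Helper88.QT.St2
import Pool.Agent.Helper85.QT.St1

set_option autoImplicit false

open scoped ENNReal

namespace Pool.Agent.Helper1.QT

lemma fin_sum_le (k : ℕ) (f : Fin k → ℝ≥0∞) (B : ℝ≥0∞) (h : ∀ y, f y ≤ B) :
    ∑ y : Fin k, f y ≤ k * B := by
  calc ∑ y : Fin k, f y ≤ ∑ _y : Fin k, B := Finset.sum_le_sum fun y _ => h y
    _ = k * B := by simp

lemma chain_step {Γ : Type} [Group Γ] (α : Γ) (k : ℕ) (E : Fin k → Γ → ℝ≥0∞)
    (q : Γ → Fin k → ℝ≥0∞) (w : Fin k → ℤ → Fin k → ℝ≥0∞) (B Q W : ℝ≥0∞)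
    (hE : ∀ y, ∑' g, E y g ≤ B) (hq : ∀ y, ∑' g, q g y ≤ Q) (hw : ∀ y y', ∑' n, w y n y' ≤ W) :
    ∑' g : Γ, ∑' g₁ : Γ, ∑ y : Fin k, ∑' n : ℤ, ∑ y' : Fin k,
      q g₁ y * w y n y' * E y' ((g₁ * α ^ n)⁻¹ * g) ≤ (k : ℝ≥0∞) ^ 2 * Q * W * B := by
  have hre : ∀ (y' : Fin k) (c : Γ), ∑' g, E y' (c * g) = ∑' g, E y' g := fun y' c =>
    (Equiv.mulLeft c).tsum_eq (E y')
  have h1 : ∑' g : Γ, ∑' g₁ : Γ, ∑ y : Fin k, ∑' n : ℤ, ∑ y' : Fin k,
      q g₁ y * w y n y' * E y' ((g₁ * α ^ n)⁻¹ * g)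
      = ∑' g₁ : Γ, ∑ y : Fin k, ∑' n : ℤ, ∑ y' : Fin k,
        q g₁ y * w y n y' * ∑' g, E y' g := by
    rw [ENNReal.tsum_comm]
    refine tsum_congr fun g₁ => ?_
    rw [Summable.tsum_finsetSum fun _ _ => ENNReal.summable]
    refine Finset.sum_congr rfl fun y _ => ?_
    rw [ENNReal.tsum_comm]
    refine tsum_congr fun n => ?_
    rw [Summable.tsum_finsetSum fun _ _ => ENNReal.summable]
    refine Finset.sum_congr rfl fun y' _ => ?_
    rw [ENNReal.tsum_mul_left, hre]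
  rw [h1]
  calc ∑' g₁ : Γ, ∑ y : Fin k, ∑' n : ℤ, ∑ y' : Fin k, q g₁ y * w y n y' * ∑' g, E y' g
      ≤ ∑' g₁ : Γ, ∑ y : Fin k, ∑' n : ℤ, ∑ y' : Fin k, q g₁ y * w y n y' * B := by
        refine ENNReal.tsum_le_tsum fun g₁ => Finset.sum_le_sum fun y _ =>
          ENNReal.tsum_le_tsum fun n => Finset.sum_le_sum fun y' _ => ?_
        exact mul_le_mul_right (hE y') _
    _ = ∑' g₁ : Γ, ∑ y : Fin k, q g₁ y * ((∑ y' : Fin k, ∑' n : ℤ, w y n y') * B) := by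
        refine tsum_congr fun g₁ => Finset.sum_congr rfl fun y _ => ?_
        rw [← Summable.tsum_finsetSum fun _ _ => ENNReal.summable, ← ENNReal.tsum_mul_right,
          ← ENNReal.tsum_mul_left]
        refine tsum_congr fun n => ?_
        rw [Finset.sum_mul, Finset.mul_sum]
        refine Finset.sum_congr rfl fun y' _ => ?_
        rw [mul_assoc]
    _ ≤ ∑' g₁ : Γ, ∑ y : Fin k, q g₁ y * ((k * W) * B) := by
        refine ENNReal.tsum_le_tsum fun g₁ => Finset.sum_le_sum fun y _ => ?_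
        exact mul_le_mul_right (mul_le_mul_left (fin_sum_le k _ _ (hw y)) _) _
    _ = ∑ y : Fin k, (∑' g₁ : Γ, q g₁ y) * ((k * W) * B) := by
        rw [Summable.tsum_finsetSum fun _ _ => ENNReal.summable]
        refine Finset.sum_congr rfl fun y _ => ?_
        rw [ENNReal.tsum_mul_right]
    _ ≤ k * (Q * ((k * W) * B)) := by
        refine fin_sum_le k _ _ fun y => ?_
        exact mul_le_mul_left (hq y) _
    _ = (k : ℝ≥0∞) ^ 2 * Q * W * B := by ring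

theorem hCHN : Pool.Agent.Helper88.QT.StCHN := by
  intro Γ _ α k E p q w P0 Q W h0 hs hp hq hw hsmall
  have hone : ∀ N x, ∑' g, E N x g ≤ 2 * P0 := by
    intro N
    induction N with
    | zero =>
      intro x
      calc ∑' g, E 0 x g ≤ ∑' g, p x g := ENNReal.tsum_le_tsum fun g => h0 x g
        _ ≤ P0 := hp x
        _ ≤ 2 * P0 := by
          rw [two_mul]
          exact le_self_add
    | succ N ih =>
      intro x
      calc ∑' g, E (N + 1) x g ≤ ∑' g, (p x g + ∑' g₁ : Γ, ∑ y : Fin k, ∑' n : ℤ, ∑ y' : Fin k,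
            q x g₁ y * w y n y' * E N y' ((g₁ * α ^ n)⁻¹ * g)) :=
            ENNReal.tsum_le_tsum fun g => hs N x g
        _ = ∑' g, p x g + ∑' g, ∑' g₁ : Γ, ∑ y : Fin k, ∑' n : ℤ, ∑ y' : Fin k,
            q x g₁ y * w y n y' * E N y' ((g₁ * α ^ n)⁻¹ * g) := ENNReal.tsum_add
        _ ≤ P0 + (k : ℝ≥0∞) ^ 2 * Q * W * (2 * P0) :=
            add_le_add (hp x) (chain_step α k (E N) (q x) w (2 * P0) Q W ih (hq x) hw)
        _ ≤ P0 + 1 / 2 * (2 * P0) := by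
            exact add_le_add le_rfl (mul_le_mul_left hsmall _)
        _ = 2 * P0 := by
            rw [← mul_assoc, one_div, ENNReal.inv_mul_cancel (by norm_num) (by norm_num), one_mul,
              two_mul]
  refine ⟨hone, ?_⟩
  intro F p' q' P' Q' hF0 hFs hp' hq' N
  cases N with
  | zero =>
    calc ∑' g, F 0 g ≤ ∑' g, p' g := ENNReal.tsum_le_tsum fun g => hF0 g
      _ ≤ P' := hp'
      _ ≤ P' + (k : ℝ≥0∞) ^ 2 * Q' * W * (2 * P0) := le_self_add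
  | succ N =>
    calc ∑' g, F (N + 1) g ≤ ∑' g, (p' g + ∑' g₁ : Γ, ∑ y : Fin k, ∑' n : ℤ, ∑ y' : Fin k,
          q' g₁ y * w y n y' * E N y' ((g₁ * α ^ n)⁻¹ * g)) :=
          ENNReal.tsum_le_tsum fun g => hFs N g
      _ = ∑' g, p' g + ∑' g, ∑' g₁ : Γ, ∑ y : Fin k, ∑' n : ℤ, ∑ y' : Fin k,
          q' g₁ y * w y n y' * E N y' ((g₁ * α ^ n)⁻¹ * g) := ENNReal.tsum_add
      _ ≤ P' + (k : ℝ≥0∞) ^ 2 * Q' * W * (2 * P0) :=
          add_le_add hp' (chain_step α k (E N) q' w (2 * P0) Q' W (hone N) hq' hw)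

end Pool.Agent.Helper1.QT
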